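import Mathlib
import Pool.Agent.H8.Sier3

set_option autoImplicit false

namespace Pool.Agent.Results.MP_ed4d4f_gt.NotProd

open Set Filter MeasureTheory Pool.Agent.H8.Tau

/-- Sierpinski set -/
def Sierp (S : Set ℝ) : Prop := ¬ S.Countable ∧ ∀ N : Set ℝ, volume N = 0 → (S ∩ N).Countable

/-- the Hurewicz property -/
def Hurewicz (Z : Type) [TopologicalSpace Z] : Prop :=
  ∀ 𝒰 : ℕ → Set (Set Z), (∀ n, (∀ V ∈ 𝒰 n, IsOpen V) ∧ ⋃₀ 𝒰 n = univ) →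
    ∃ F : ℕ → Set (Set Z), (∀ n, (F n).Finite ∧ F n ⊆ 𝒰 n) ∧ ∀ x, ∀ᶠ n in atTop, x ∈ ⋃₀ F n

/-- the Menger property -/
def Menger (Z : Type) [TopologicalSpace Z] : Prop :=
  ∀ 𝒰 : ℕ → Set (Set Z), (∀ n, (∀ V ∈ 𝒰 n, IsOpen V) ∧ ⋃₀ 𝒰 n = univ) →
    ∃ F : ℕ → Set (Set Z), (∀ n, (F n).Finite ∧ F n ⊆ 𝒰 n) ∧ ∀ x, ∃ n, x ∈ ⋃₀ F n

theorem result (h : Cardinal.continuum.{0} = Cardinal.aleph 1) (S : Set ℝ) (hS : Sierp S) :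
    ∃ Y : Set ℝ, Hurewicz Y ∧ ¬ Menger (S × Y) ∧ ¬ Hurewicz (S × Y) := by
  obtain ⟨Y, hY, W, h1, h2, h3, h4⟩ := partner h hS
  have nm : ¬ Menger (S × Y) := by
    intro H
    let u : ℕ → ℕ → Set (S × Y) := fun n k => {p | p.1.1 + p.2.1 ∈ W n k}
    obtain ⟨F, hF, hc⟩ := H (fun n => range (u n)) fun n => ⟨by
      rintro _ ⟨k, rfl⟩
      exact (h1 n k).preimage (by fun_prop), eq_univ_of_forall fun p => by
        obtain ⟨k, hk⟩ := h3 n _ p.1.2 _ p.2.2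
        exact ⟨_, ⟨k, rfl⟩, hk⟩⟩
    choose g hg using fun n => bound (hF n).1 (P := fun V k => V ⊆ u n k)
      (fun V hV => by
        obtain ⟨k, rfl⟩ := (hF n).2 hV
        exact ⟨k, Subset.rfl⟩) fun V a b hab h p hp => h2 n hab (h hp)
    obtain ⟨x, hx, y, hy, h5⟩ := h4 g
    obtain ⟨n, V, hV, hp⟩ := hc (⟨x, hx⟩, ⟨y, hy⟩)
    exact h5 n (hg n V hV hp)
  refine ⟨Y, fun 𝒰 hU => ?_, nm, fun H => nm fun 𝒰 hU => ?_⟩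
  · obtain ⟨F, h5, h6⟩ := hur hY 𝒰 hU
    exact ⟨fun n => F n, fun n => ⟨(F n).finite_toSet, h5 n⟩, h6⟩
  · obtain ⟨F, h5, h6⟩ := H 𝒰 hU
    exact ⟨F, h5, fun x => (h6 x).exists⟩

end Pool.Agent.Results.MP_ed4d4f_gt.NotProd
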